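import Mathlib
import Pool.Agent.N576.MX3.Z5

set_option autoImplicit false

/-!
# The `n`th distinct Markoff number: an explicit formula

Let `m_n` be the `n`th Markoff number (distinct numbers, in increasing order), `M(N)` the number of Markoff triples up
to `N`, `C` the limit of `M(N) / (log N)²`, `A = exp (1 / √C)` and `Δ(N) = M(N) - C (log 3N)²`.  Unconditionally
(without the uniqueness conjecture) `M(N)` exceeds the number of Markoff numbers up to `N` by at most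
`K (log log N)^L`, and `log (3 m_n) = √(n/C) - Δ(m_n) / (2 √(C n)) + O((log n)^L / √n)`.  Hence `m_n A^(-√n)` tends
to `1/3`, and for every `θ` in `[0, 1)` the statement `m_n = (1/3 + O(n^(-(1-θ)/2+ε))) A^(√n)` is equivalent to
`Δ(N) = O((log N)^(θ+ε))`; for `θ = 1/2` the first of them is Zagier's question.
-/

namespace Pool.Agent.Results.MP_94ab62_nt.FormulaForNumbers

open Filter

/-- Markoff numbers: the entries of the solutions of `x² + y² + z² = 3 x y z` in positive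
integers. -/
def IsMarkoff (m : ℕ) : Prop :=
  ∃ x y : ℕ, 0 < x ∧ 0 < y ∧ 0 < m ∧ x ^ 2 + y ^ 2 + m ^ 2 = 3 * x * y * m

/-- `m_n`, the `n`th Markoff number, `n ≥ 1` (the distinct Markoff numbers in increasing order) -/
noncomputable def markoff (n : ℕ) : ℕ := Nat.nth IsMarkoff (n - 1)

/-- `M(N)`, the number of Markoff triples `x ≤ y ≤ z ≤ N` -/
def triples (N : ℕ) : ℕ :=
  ((Finset.Icc 1 N ×ˢ Finset.Icc 1 N ×ˢ Finset.Icc 1 N).filter
    (fun p : ℕ × ℕ × ℕ =>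
      p.1 ≤ p.2.1 ∧ p.2.1 ≤ p.2.2 ∧
        p.1 ^ 2 + p.2.1 ^ 2 + p.2.2 ^ 2 = 3 * p.1 * p.2.1 * p.2.2)).card

/-- the number of Markoff numbers `m ≤ N` -/
noncomputable def numbers (N : ℕ) : ℕ := {m : ℕ | m ≤ N ∧ IsMarkoff m}.ncard

theorem numbers_eq (N : ℕ) : numbers N = Pool.Agent.H499R2.mkN N := by
  classical
  unfold numbers Pool.Agent.H499R2.mkN
  rw [← Set.ncard_coe_finset]
  congr 1
  ext m
  simp only [Set.mem_ofPred_eq, Finset.coe_filter, Finset.mem_Icc]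
  have h : IsMarkoff m ↔ 1 ≤ m ∧ Pool.Agent.H499R2.Mk m := Pool.Agent.H609R3.NM.P_iff
  rw [h]
  tauto

/-- **The distinct Markoff numbers.** -/
theorem result : ∃ C : ℝ, 0 < C ∧
    Tendsto (fun N : ℕ => (triples N : ℝ) / (Real.log N) ^ 2) atTop (nhds C) ∧
    Tendsto (fun n : ℕ => (markoff n : ℝ) / Real.exp (Real.sqrt n / Real.sqrt C)) atTop (nhds (1 / 3)) ∧
    (∃ (K : ℝ) (L : ℕ), ∀ N : ℕ, 16 ≤ N →
      numbers N ≤ triples N ∧ (triples N : ℝ) - numbers N ≤ K * (Real.log (Real.log N)) ^ L) ∧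
    (∃ (K : ℝ) (L : ℕ), ∀ n : ℕ, 3 ≤ n →
      |Real.log (3 * markoff n) - Real.sqrt (n / C) +
        ((triples (markoff n) : ℝ) - C * (Real.log (3 * markoff n)) ^ 2) / (2 * Real.sqrt (C * n))| ≤
      K * ((Real.log n) ^ L / Real.sqrt n)) ∧
    (∀ θ : ℝ, 0 ≤ θ → θ < 1 →
      ((∀ ε : ℝ, 0 < ε → ∃ K : ℝ, ∀ n : ℕ, 1 ≤ n →
          |(markoff n : ℝ) / Real.exp (Real.sqrt n / Real.sqrt C) - 1 / 3| ≤ K * (n : ℝ) ^ (-(1 - θ) / 2 + ε)) ↔
        (∀ ε : ℝ, 0 < ε → ∃ K : ℝ, ∀ N : ℕ, 3 ≤ N →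
          |(triples N : ℝ) - C * (Real.log (3 * N)) ^ 2| ≤ K * (Real.log N) ^ (θ + ε)))) := by
  obtain ⟨C, hC, h1, h2, h3, h4⟩ := Pool.Agent.N576.MX3.zagier_main
  refine ⟨C, hC, h1, h2, ?_, h3, h4⟩
  obtain ⟨K, L, -, hK⟩ := Pool.Agent.N576.MX3.excess_poly
  refine ⟨K, L, fun N hN => ?_⟩
  rw [numbers_eq]
  exact ⟨Pool.Agent.H609R3.NM.mkN_le_tri N, hK N hN⟩

end Pool.Agent.Results.MP_94ab62_nt.FormulaForNumbers
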